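import Pool.Agent.N902.OP.GeoX

/-!
# MP_a325a5_ag: for the Zilber-Pink conjecture in all `Y(1)^n × G_m^k`, the optimal points of linear varieties suffice

`Y(1)` is identified with the affine line over `ℂ` by the modular function `j`. The definitions are in
`Pool/Agent/N101/ZP/XDef.lean`:

* `Pts ι κ`: the points `(x, u)` of `Y(1)^ι × G_m^κ`, `x : ι → ℂ`, `u : κ → ℂˣ`; `co`: their coordinates;
* `ZClosed`, `Subvariety`, `vdim`: closed sets, irreducible closed sets, dimension;
* `Special Z`: `Z = Y × T` with a special subvariety `Y` of `Y(1)^ι` and a torsion coset `T` of `G_m^κ`;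
* `defect A`: the least dimension of a special subvariety containing `A`, minus the dimension of `A`;
* `Optimal A V`: `A ⊆ V` is a subvariety and no subvariety `B` with `A ⊂ B ⊆ V` (proper inclusion)
  has `defect B ≤ defect A`;
* `diagPow M`: the `M`-th power of the curve `x = u` in `Y(1) × G_m`;

and in `Pool/Agent/N902/OP/GeoX.lean`:

* `XComp W B`: `W` is an irreducible component of `B`;
* `Least S Z`: `S` is a special subvariety of the least dimension containing `Z`, that is `S = ⟨Z⟩`.

**Theorem.** The following statements are equivalent.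

1. (Q1 for all the mixed Shimura varieties `Y(1)^ι × G_m^κ`.) For every subvariety `X` of `Y(1)^ι × G_m^κ`
   the atypical Hodge locus of `X` is not Zariski dense in `X`.
2. Every subvariety of every `Y(1)^ι × G_m^κ` has only finitely many optimal subvarieties.
3. Every closed subset of some `Y(1)^ι × G_m^κ` defined by polynomials of degree at most one has only
   finitely many optimal points.
4. For every `M` and every `J ⊆ {1, …, M}` there are algebraically independent numbers `γ_1, …, γ_M` such
   that the slice `x_j = γ_j`, `j ∈ J`, of the power `x_i = u_i`, `i ≤ M`, of the curve `x = u` has only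
   finitely many optimal points.

The slice in 4 is the product of the power `D^m`, `m = M - |J|`, of the curve `D : x = u` in `Y(1) × G_m`
and of one point `(γ_j, γ_j)`, `j ∈ J`. So Q1 for all `Y(1)^n × G_m^k` is a statement on tuples
of numbers `x_1, …, x_m`, which are isolated in their relations: modular relations between the `x_i` and
the `γ_j`, and multiplicative relations between them.

That 2 follows from the finiteness of all the optimal subvarieties of the powers of the curve is a theorem
of helper101 (`MP_defd1c_ag.PowersOfTheDiagonal`), which is used. The new part of the proof: if `A` is an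
optimal subvariety, of dimension `d`, of a power of the curve over the algebraic numbers, then `d` of
the coordinates `x_i` form a transcendence basis of its function field, and if they are fixed to
algebraically independent numbers, then `A` becomes a finite set of points, which are optimal in the
corresponding slice: the closure over the algebraic numbers of a larger subvariety `B` of the slice has
dimension at least `dim B + d`.
-/

set_option autoImplicit false

namespace Pool.Agent.Results.MP_a325a5_ag.OptimalPoints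

open MvPolynomial Pool.Agent.N101.YG Pool.Agent.N902.OPX

/-- The atypical Hodge locus of `X`: the union of the atypical special subvarieties `Z` of `X`, the
irreducible components `Z` of `X ∩ ⟨Z⟩` with `codim_X Z < codim_⟨X⟩ ⟨Z⟩`, that is
`dim ⟨Z⟩ - dim Z < dim ⟨X⟩ - dim X`. -/
def atypicalLocus {ι κ : Type} [Fintype ι] [Fintype κ] (X : Set (Pts ι κ)) : Set (Pts ι κ) :=
  {p | ∃ Z S : Set (Pts ι κ), Least S Z ∧ XComp Z (X ∩ S) ∧ defect Z < defect X ∧ p ∈ Z}

/-- Q1 for the mixed Shimura varieties `Y(1)^ι × G_m^κ`: the atypical Hodge locus of `X` is not Zariski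
dense in `X`. -/
def ZilberPink : Prop :=
  ∀ (ι κ : Type) [Fintype ι] [Fintype κ] (X : Set (Pts ι κ)), Subvariety X →
    ∃ f : MvPolynomial (ι ⊕ κ) ℂ, (∀ p ∈ atypicalLocus X, eval (co p) f = 0) ∧
      ∃ p ∈ X, eval (co p) f ≠ 0

theorem not_dense_iff {ι κ : Type} [Fintype ι] [Fintype κ] (X : Set (Pts ι κ)) (hX : Subvariety X) :
    (∃ f : MvPolynomial (ι ⊕ κ) ℂ, (∀ p ∈ atypicalLocus X, eval (co p) f = 0) ∧
      ∃ p ∈ X, eval (co p) f ≠ 0) ↔ ¬ X ⊆ xcl (low X) := by
  have h0 : low X = atypicalLocus X := low_eq X hX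
  rw [h0]
  constructor
  · rintro ⟨f, h1, p, h2, h3⟩ h4
    exact h3 (h4 h2 f h1)
  · intro h
    rw [Set.not_subset] at h
    obtain ⟨p, h2, h3⟩ := h
    have h4 : ¬ ∀ f ∈ van (atypicalLocus X), eval (co p) f = 0 := h3
    push Not at h4
    obtain ⟨f, h5, h6⟩ := h4
    exact ⟨f, h5, p, h2, h6⟩

theorem result :
    (ZilberPink ↔
      ∀ (ι κ : Type) [Fintype ι] [Fintype κ] (V : Set (Pts ι κ)), Subvariety V →
        {A | Optimal A V}.Finite) ∧
    (ZilberPink ↔
      ∀ (ι κ : Type) [Fintype ι] [Fintype κ] (S : Set (MvPolynomial (ι ⊕ κ) ℂ)),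
        (∀ f ∈ S, f.totalDegree ≤ 1) → {p | Optimal {p} (zeros S)}.Finite) ∧
    (ZilberPink ↔
      ∀ (M : ℕ) (J : Finset (Fin M)), ∃ γ : Fin M → ℂ, AlgebraicIndependent ℚ γ ∧
        {p | Optimal {p} {q | q ∈ diagPow M ∧ ∀ j ∈ J, q.1 j = γ j}}.Finite) := by
  have h13 : ZilberPink → ∀ (ι κ : Type) [Fintype ι] [Fintype κ] (V : Set (Pts ι κ)), ZClosed V →
      {p | Optimal {p} V}.Finite := by
    intro h ι κ _ _ V hV
    exact x_points_of_low (fun X hX => (not_dense_iff X hX).1 (h ι κ X hX)) V hV
  have h34 : (∀ (ι κ : Type) [Fintype ι] [Fintype κ] (S : Set (MvPolynomial (ι ⊕ κ) ℂ)),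
        (∀ f ∈ S, f.totalDegree ≤ 1) → {p | Optimal {p} (zeros S)}.Finite) →
      ∀ (M : ℕ) (J : Finset (Fin M)), ∃ γ : Fin M → ℂ, AlgebraicIndependent ℚ γ ∧
        {p | Optimal {p} (diagSlice M J γ)}.Finite := by
    intro h M J
    obtain ⟨γ, hγ⟩ := x_exists_indep (Fin M)
    obtain ⟨S, hS1, hS2⟩ := x_slice_linear M J γ
    refine ⟨γ, hγ, ?_⟩
    rw [hS2]
    exact h _ _ S hS1
  have h42 : (∀ (M : ℕ) (J : Finset (Fin M)), ∃ γ : Fin M → ℂ, AlgebraicIndependent ℚ γ ∧
        {p | Optimal {p} (diagSlice M J γ)}.Finite) →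
      ∀ (ι κ : Type) [Fintype ι] [Fintype κ] (V : Set (Pts ι κ)), Subvariety V →
        {A | Optimal A V}.Finite :=
    fun h ι κ _ _ V hV => x_all_of_slices h V hV.closed
  have h21 : (∀ (ι κ : Type) [Fintype ι] [Fintype κ] (V : Set (Pts ι κ)), Subvariety V →
        {A | Optimal A V}.Finite) → ZilberPink :=
    fun h ι κ _ _ X hX => (not_dense_iff X hX).2 (x_low_of_optimal X hX (h ι κ X hX))
  exact ⟨⟨fun h => h42 (h34 fun ι κ _ _ S _ => h13 h ι κ _ ⟨S, rfl⟩), h21⟩,
    ⟨fun h ι κ _ _ S _ => h13 h ι κ _ ⟨S, rfl⟩, fun h => h21 (h42 (h34 h))⟩,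
    ⟨fun h => h34 fun ι κ _ _ S _ => h13 h ι κ _ ⟨S, rfl⟩, fun h => h21 (h42 h)⟩⟩

end Pool.Agent.Results.MP_a325a5_ag.OptimalPoints
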