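import Pool.Agent.N901.ORB.ZPM
import Pool.Agent.N24.RW.Clo
import Pool.Agent.N24.RW.Crit
import Pool.Agent.N24.RW.Erg
import Pool.Agent.N24.RW.Main
import Pool.Agent.N24.RW.One
import Pool.Agent.N24.RW.Orb

/-!
# MP_a325a5_ag: Zilber-Pink for the translates of all subvarieties of all the mixed Shimura varieties
`Y(1)^n × G_m^k` along random orbits of thin groups

The Shimura variety `Y(1)^n` is identified with `ℂ^n` by the elliptic modular function. The ambient
variety is `X = Y(1)^n × G_m^k`, with coordinates indexed by `Fin n ⊕ Fin k`. Let `V` be an arbitrary
subset of `X` of dimension at most `m` (`DimLE`), for example any algebraic subvariety. We move `V` by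
Möbius maps `x ↦ ρ_i (x - β_i) / (x - δ_i)` in the modular coordinates and then divide all the
coordinates by positive integers `c_i` (`translate`; for a torus there is no Möbius map and `c⁻¹ V` is
an arbitrary translate of `V` by a point with integral coordinates). The starting result
`MP_defd1c_ag.MixedTranslates` shows that the translate has no atypical intersection with special
subvarieties if at sufficiently many large primes the exponents of the `c_i` are independent.

Here the integers are `c_i = ∏_l |x_l| ^ e_{l i}` (`move`) where `x` is an integral vector with `M`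
coordinates and the exponents `e_{l i}` are independent (`Independent`). There are a number `M₀` and a
proper closed subset `R = 0` of `ℂ^n` which depend only on `V`, such that the following holds for all
`M ≥ M₀` if the zeros and poles of the Möbius maps are generic (`Generic`: none of the `2 ^ n` points
with coordinates `s_i ∈ {β_i, δ_i}` is on `R = 0`).

**Theorem, first part.** There is a sequence of sets `B 0, B 1, …` of integral vectors, depending only
on `M`, which are null sets in the profinite sense (`ProNull`: the closure of `B D` in the product of
the `ℤ_p^M` has Haar measure zero, also if finitely many primes are omitted) such that for ALL `n`,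
`k`, `V`, all the generic Möbius maps and all `Γ` there is an index `D` such that for all the `x`
outside of `B D` and ALL independent exponents the translate `c⁻¹ g V` has no atypical intersection
with any product `Z × T` of a special subvariety `Z` of `Y(1)^n` and a torsion coset `T`: every
irreducible closed subset `A` of the intersection of its Zariski closure with `Z × T` satisfies
`dim A ≤ dim Z + dim T + m - (n + k)`. More generally the constant coordinates of `Z` may be isogenous
to an element of a given finite set `Γ` of complex numbers, or integral over `ℤ[Γ]`, and `T` may be any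
coset of an algebraic subgroup by a point of the division hull of the group generated by `Γ`.

**Theorem, second part.** Let `M ≥ 2` and let `s_0, …, s_m` be integral matrices of size `M` and
determinant one which generate `SL_M(ℤ/q)` for all `q` prime to some `q₀` (`Walk`). By strong
approximation every finite set that generates a Zariski dense subgroup of `SL_M` is such a set; the
group may be thin, i.e. of infinite index. For almost every word `w` in the letters `0, …, m` (for
independent, uniformly distributed letters) there is ONE set `E` of times of density zero such that for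
ALL vectors `v ≠ 0`, ALL `n`, `k`, `V`, all the generic Möbius maps and all `Γ`, for all but finitely
many times `t` outside of `E` the point `x = s_{w(t-1)} ⋯ s_{w(0)} v` of the random orbit has the
property that for ALL independent exponents the translate `c⁻¹ g V` has no atypical intersections.

Among the vectors with coordinates at most `H` the orbit meets only logarithmically many, so that the
second part does not follow from density theorems for boxes.

Proof. Outside of a set which is null in the profinite sense every coordinate of `x` has a prime
divisor `p > D` of multiplicity one which does not divide the other coordinates; these are primes as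
required in `MixedTranslates`. The random orbit of `v` modulo `q` is a random walk on an orbit of
`SL_M(ℤ/q)` on the vectors modulo `q`. If `v` is primitive modulo `q` and `q` is odd the orbit contains
at least half of all vectors, the ergodic theorem shows that the random orbit is in the classes of
`B D` modulo `q` with a frequency which is at most twice their density, and this is arbitrarily small
for suitable `q` (`Pool.Agent.N24.RW`). A diagonal argument gives one set `E`.
-/

set_option autoImplicit false

namespace Pool.Agent.Results.MP_a325a5_ag.RandomOrbits

open MeasureTheory Filter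
open Pool.Agent.N24.RW (Walk orb words ProNull)
open Pool.Agent.Results.MP_defd1c_ag.MixedTranslates (DimLE NoAtypical translate Independent)

/-- The positive integers `c_i = ∏_l |x_l| ^ e_{l i}` (positive if all the `x_l` are not zero). -/
def move {n k M : ℕ} (e : Fin M → Fin n ⊕ Fin k → ℕ) (x : Fin M → ℤ) : Fin n ⊕ Fin k → ℕ :=
  fun i => ∏ l : Fin M, (x l).natAbs ^ e l i

/-- The Möbius maps with zeros `β`, poles `δ` and factors `ρ` are generic with respect to `R`: none of
the `2 ^ n` points with coordinates `β i` or `δ i` is on the hypersurface `R = 0`. -/
def Generic {n : ℕ} (R : MvPolynomial (Fin n) ℂ) (β δ ρ : Fin n → ℂ) : Prop :=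
  (∀ i, β i ≠ δ i) ∧ (∀ i, ρ i ≠ 0) ∧
    ∀ s : Fin n → ℂ, (∀ i, s i = β i ∨ s i = δ i) → MvPolynomial.eval s R ≠ 0

/-- The set `E` of times has density zero. -/
def Null (E : Set ℕ) : Prop :=
  Tendsto (fun N : ℕ => (({t : ℕ | t < N ∧ t ∈ E}.ncard : ℕ) : ℝ) / (N : ℝ)) atTop (nhds 0)

theorem result :
    ∃ (M₀ : ∀ n k : ℕ, ℕ → Set (Fin n ⊕ Fin k → ℂ) → ℕ)
      (R : ∀ n k : ℕ, ℕ → Set (Fin n ⊕ Fin k → ℂ) → MvPolynomial (Fin n) ℂ),
      (∀ n k m V, R n k m V ≠ 0) ∧ ∀ M : ℕ,
      (∃ B : ℕ → Set (Fin M → ℤ), (∀ D, ProNull (B D)) ∧
        ∀ (n k m : ℕ) (V : Set (Fin n ⊕ Fin k → ℂ)), DimLE m V → M₀ n k m V ≤ M →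
          ∀ β δ ρ : Fin n → ℂ, Generic (R n k m V) β δ ρ → ∀ Γ : Finset ℂ, ∃ D : ℕ,
            ∀ x, x ∉ B D → ∀ e : Fin M → Fin n ⊕ Fin k → ℕ, Independent e →
              NoAtypical Γ m (translate V β δ ρ (move e x))) ∧
      (2 ≤ M → ∀ W : Walk (Fin M), ∀ᵐ w ∂(words W.m), ∃ E : Set ℕ, Null E ∧
        ∀ v : Fin M → ℤ, v ≠ 0 →
        ∀ (n k m : ℕ) (V : Set (Fin n ⊕ Fin k → ℂ)), DimLE m V → M₀ n k m V ≤ M →
          ∀ β δ ρ : Fin n → ℂ, Generic (R n k m V) β δ ρ → ∀ Γ : Finset ℂ,
            {t : ℕ | t ∉ E ∧ ¬ ∀ e : Fin M → Fin n ⊕ Fin k → ℕ, Independent e →
                NoAtypical Γ m (translate V β δ ρ (move e (orb W v w t)))}.Finite) :=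
  Pool.Agent.N901.ORB.ZPM.main
    (Pool.Agent.N24.RW.t_ONE Pool.Agent.N24.RW.t_CRIT Pool.Agent.N24.RW.t_CLO)
    (Pool.Agent.N24.RW.t_MAIN Pool.Agent.N24.RW.t_ORB Pool.Agent.N24.RW.t_ERG)

end Pool.Agent.Results.MP_a325a5_ag.RandomOrbits
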