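import Pool.Agent.N593.ZP.Thin
import Pool.Agent.N593.ZP.Class

/-!
# MP_a325a5_ag: Zilber-Pink in (products of modular curves of any level) `× G_m^k` along thin sequences
of correspondences

The notation is that of the starting file `RandomMixedCorrespondences`. `S = X_1 × … × X_n × G_m^k` is
a product of modular curves of arbitrary levels and a torus; `1 = g_{i,0}, …, g_{i,D i}` are modular
functions for `Γ_i` which are holomorphic on the upper half plane (`System`); `B ⊆ P^N` is an arbitrary
projective variety over the algebraic numbers of dimension at most `m` (`DimLE`), the set of zeros of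
forms `G`. A vector `c` of integers (`Coeffs`) gives `r` numerators and `r` denominators
`∑_f c(j, s, f)(y) ∏_i g_{i,f_i} (z_i) ∏_w u_w^(f_w)` (`form`), where the `c(j, s, f)(y)` are arbitrary
forms of degree `d_j` with integral coefficients, and so a rational map `F_c` from `B × S` to `ℂ^r`.
For an irreducible subvariety `V` of `ℂ^r` over the complex numbers, of any dimension, let `X_c` be
the pull-back (`pullback`; it contains the closure of `F_c⁻¹(V)`) and `V_c ⊆ S` its image, a closed
subvariety. So `X_c` is a correspondence between `B` and `S`, and for a point `B` the `V_c` are the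
pull-backs of `V` to `S` under random rational maps in all variables. `NoAtypical Γ X_c m r (dim V)`
says that for all `ρ` the irreducible closed subsets `W` of the intersection of `V_c` with the union
of all special subvarieties of codimension at least `ρ` of `S` have dimension at most
`m + n + k - (r - dim V) - ρ`, and the same for the intersection of `X_c` with `B × Z × T`: there are no
atypical intersections at all.

The starting result is that this is true for a positive proportion of the vectors `c` in every box.
Here we consider thin sequences of vectors. Let `P_i(t) = ∑ a_x t ^ x` be generalised polynomials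
(finitely many real exponents, real coefficients), one for every coordinate `i` of the vector `c`,
with distinct leading exponents which are positive and not integers and have positive coefficients, for
example `√2 t ^ (i + 1/2)` or `t ^ (i π) - t`, and the sequence of the vectors `c(t)` with coordinates

`c(t)_i = ⌊P_i(t)⌋`, `t = 1, 2, 3, …`

In a box of size `H` there are only `H ^ ε` members of such a sequence, with `ε` arbitrarily small,
among `H ^ C` vectors, `C` the number of coordinates.

**Theorem.** Let `B_b, V_b, g_b` be any finite number of data as above, with the same `D` and `d`, and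
let `c₀` be any residue class modulo `Q₀`. There is a number `δ > 0` such that for ALL such sequences,
for all `X ≥ X₀`, and for at least `δ X` of the integers `t` in `(X, 2 X]`, and for at least the
proportion `δ` of the primes `t` in `(X, 2 X]`, the vector `c(t)` is in the residue class `c₀`, and
none of the correspondences `X_{c(t)}` given by these data has an atypical intersection. The number
`δ` does not depend on the sequence.

Proof. By the local analysis of the starting files (`Pool.Agent.TH971.SR.exists_classX`) there is a
residue class modulo some `Q`, such that all the vectors `c` in this class have the property. This is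
used for one datum after the other. By the exponential sums of the starting files
(`Pool.Agent.Y961.JR`) the vectors `c(t)` are equidistributed modulo `Q`, also at the primes
(`Pool.Agent.N666.TM`).
-/

set_option autoImplicit false

namespace Pool.Agent.Results.MP_a325a5_ag.ThinCorrespondences

open Pool.Agent.W282.ZP UpperHalfPlane
open Pool.Agent.Results.MP_a325a5_ag.RandomMixedCorrespondences (DimLE System Idx Coeffs pullback
  NoAtypical)

/-- `c` is the largest exponent of the generalised polynomial `∑ a_x t ^ x`; it is positive and not an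
integer and has a positive coefficient. -/
def Admissible (F : Finset ℝ) (a : ℝ → ℝ) (c : ℝ) : Prop :=
  c ∈ F ∧ (∀ x ∈ F, x ≤ c) ∧ 0 < c ∧ (∀ m : ℕ, c ≠ m) ∧ 0 < a c

/-- The integer parts of the values at `t` of the generalised polynomials `P_i`. -/
noncomputable def member {ι : Type} (F : ι → Finset ℝ) (a : ι → ℝ → ℝ) (t : ℕ) : ι → ℤ :=
  fun i => ⌊∑ x ∈ F i, a i x * (t : ℝ) ^ x⌋

theorem result {N n k r : ℕ} (D : Fin n ⊕ Fin k → ℕ) (hD : ∀ w, 0 < D (Sum.inr w)) (d : Fin r → ℕ)
    {L : ℕ} (κ : Fin L → Type) (G : (b : Fin L) → κ b → MvPolynomial (Fin (N + 1)) ℂ)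
    (hhom : ∀ b l, ∃ e, (G b l).IsHomogeneous e)
    (halg : ∀ b l s, IsAlgebraic ℚ ((G b l).coeff s))
    (m : Fin L → ℕ) (hdim : ∀ b, DimLE (G b) (m b))
    (V : Fin L → Set (Fin r → ℂ)) (hV : ∀ b, (idealOf (V b)).IsPrime)
    (g : Fin L → (i : Fin n) → Fin (D (Sum.inl i) + 1) → ℍ → ℂ) (hg : ∀ b, System D (g b))
    (Γ : Finset ℂ) (Q₀ : ℕ) (hQ₀ : 0 < Q₀) (c₀ : Coeffs N r D d) :
    ∃ δ : ℝ, 0 < δ ∧ ∀ (F : Idx N r D d → Finset ℝ) (a : Idx N r D d → ℝ → ℝ)
      (e : Idx N r D d → ℝ), (∀ i, Admissible (F i) (a i) (e i)) → Function.Injective e →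
      ∃ X₀ : ℕ, ∀ X : ℕ, X₀ ≤ X →
        δ * X ≤ ({t : ℕ | t ∈ Finset.Ioc X (2 * X) ∧
          (∀ i, (Q₀ : ℤ) ∣ member F a t i - c₀ i) ∧
          ∀ b, NoAtypical Γ (pullback (G b) (g b) (member F a t) (V b)) (m b) r
            (zdim (V b))}.ncard : ℝ) ∧
        δ * ((Finset.Ioc X (2 * X)).filter Nat.Prime).card ≤
          ({t : ℕ | t ∈ (Finset.Ioc X (2 * X)).filter Nat.Prime ∧
          (∀ i, (Q₀ : ℤ) ∣ member F a t i - c₀ i) ∧
          ∀ b, NoAtypical Γ (pullback (G b) (g b) (member F a t) (V b)) (m b) r
            (zdim (V b))}.ncard : ℝ) := by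
  classical
  obtain ⟨Q, Gt, hQ, hclass⟩ := Pool.Agent.N593.ZP.finite_class
    (fun (b : Fin L) (c : Coeffs N r D d) =>
      NoAtypical Γ (pullback (G b) (g b) c (V b)) (m b) r (zdim (V b)))
    (fun b Q₁ hQ₁ c₁ => Pool.Agent.N593.ZP.one_class (m b) r (G b) (hhom b) (halg b) (hdim b) (V b)
      (hV b) D hD (g b) (hg b) d Γ Q₁ hQ₁ c₁) Q₀ hQ₀ c₀
  refine ⟨1 / (2 * (Q : ℝ) ^ Fintype.card (Idx N r D d)), by positivity,
    fun F a e h he => ?_⟩
  obtain ⟨X₀, hX₀⟩ := Pool.Agent.N593.ZP.thin_class h he hQ Gt
  refine ⟨X₀, fun X hX => ?_⟩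
  obtain ⟨h1, h2⟩ := hX₀ X hX
  refine ⟨h1.trans ?_, h2.trans ?_⟩
  · rw [← Set.ncard_coe_finset]
    refine Nat.cast_le.mpr (Set.ncard_le_ncard ?_ ((Finset.finite_toSet _).subset fun t ht => ht.1))
    intro t ht
    obtain ⟨ht1, ht2⟩ := Finset.mem_filter.mp (Finset.mem_coe.mp ht)
    exact ⟨ht1, hclass _ ht2⟩
  · rw [← Set.ncard_coe_finset]
    refine Nat.cast_le.mpr (Set.ncard_le_ncard ?_ ((Finset.finite_toSet _).subset fun t ht => ht.1))
    intro t ht
    obtain ⟨ht1, ht2⟩ := Finset.mem_filter.mp (Finset.mem_coe.mp ht)
    exact ⟨ht1, hclass _ ht2⟩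

end Pool.Agent.Results.MP_a325a5_ag.ThinCorrespondences
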